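import Pool.Agent.Lib.MP_6df53f_co.Params
import Pool.Agent.Lib.MP_6df53f_co.Large

/-!
# Monochromatic cycle partitions under a minimum degree condition

There is no absolute constant `K` with `cp_r(δ) ≤ K r ⌈r / log (1 / δ)⌉` for all `r ≥ 2` and
`0 < δ < 1 / 2`.
-/

namespace Pool.Agent.Results.MP_6df53f_co.CyclePartitionDisproof

/-- `C` is the vertex set of a monochromatic cycle of the coloured graph `(G, χ)`: it is empty, a
single vertex, the pair of ends of an edge, or the set of vertices of a cycle of `G` all of whose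
edges have the same colour. -/
def IsMonoCycle {V : Type*} {r : ℕ} (G : SimpleGraph V) (χ : Sym2 V → Fin r) (C : Finset V) :
    Prop :=
  C.card ≤ 1 ∨ (∃ u v, G.Adj u v ∧ ∀ w, w ∈ C ↔ w = u ∨ w = v) ∨
    ∃ (i : Fin r) (v : V) (p : G.Walk v v), p.IsCycle ∧ (∀ e ∈ p.edges, χ e = i) ∧
      ∀ w, w ∈ C ↔ w ∈ p.support

/-- The vertices of `(G, χ)` can be partitioned into `k` monochromatic cycles. -/
def HasCyclePartition {V : Type*} {r : ℕ} (G : SimpleGraph V) (χ : Sym2 V → Fin r) (k : ℕ) :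
    Prop :=
  ∃ C : Fin k → Finset V, (∀ j, IsMonoCycle G χ (C j)) ∧
    (∀ j j', j ≠ j' → Disjoint (C j) (C j')) ∧ ∀ v, ∃ j, v ∈ C j

/-- The least number of monochromatic cycles partitioning the vertices of `(G, χ)`. -/
noncomputable def cp {V : Type*} {r : ℕ} (G : SimpleGraph V) (χ : Sym2 V → Fin r) : ℕ :=
  sInf {k | HasCyclePartition G χ k}

/-- `cp_r(δ)`: the upper limit for `n → ∞` of the maximum of `cp` over all `r`-edge-coloured
graphs on `n` vertices with minimum degree at least `(1 - δ) n`. -/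
noncomputable def cpr (r : ℕ) (δ : ℝ) : EReal :=
  Filter.limsup (fun n : ℕ => ⨆ (G : SimpleGraph (Fin n)) (χ : Sym2 (Fin n) → Fin r)
    (_ : ∀ v, (1 - δ) * n ≤ (G.neighborSet v).ncard), ((cp G χ : ℝ) : EReal)) Filter.atTop

lemma cpr_eq : cpr = Pool.Agent.Lib.MP_6df53f_co.cpr := rfl

/-- There is no absolute constant `K > 0` with `cp_r(δ) ≤ K r ⌈r / log (1 / δ)⌉` for all integers
`r ≥ 2` and all real `δ` with `0 < δ < 1 / 2`. -/
theorem result : ¬ ∃ K : ℝ, 0 < K ∧ ∀ r : ℕ, 2 ≤ r → ∀ δ : ℝ, 0 < δ → δ < 1 / 2 →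
    cpr r δ ≤ ((K * r * ⌈(r : ℝ) / Real.log (1 / δ)⌉ : ℝ) : EReal) := by
  rintro ⟨K0, hK0, hall⟩
  rw [cpr_eq] at hall
  open Pool.Agent.Lib.MP_6df53f_co in
  obtain ⟨T, hT⟩ : ∃ T : ℕ, 1024 * (2048 * K0 + 2) ≤ T := exists_nat_ge _
  have hT1 : (2048 : ℝ) ≤ T := by nlinarith
  have hlam : 512 * K0 * (T + 1) ^ 2 + 3 ≤ Pool.Agent.Lib.MP_6df53f_co.lam T := by
    have h1 := Real.pow_div_factorial_le_exp ((T : ℝ) / 2) (by positivity) 3
    have h2 : (T : ℝ) ^ 3 / 1024 ≤ Pool.Agent.Lib.MP_6df53f_co.lam T := by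
      unfold Pool.Agent.Lib.MP_6df53f_co.lam
      have h3 : ((Nat.factorial 3 : ℕ) : ℝ) = 6 := by norm_num [Nat.factorial]
      rw [h3] at h1
      calc (T : ℝ) ^ 3 / 1024 = 3 / 64 * (((T : ℝ) / 2) ^ 3 / 6) := by ring
        _ ≤ _ := by gcongr
    have h3 : (2048 * K0 + 2) * (T : ℝ) ^ 2 ≤ (T : ℝ) ^ 3 / 1024 := by
      have : (T : ℝ) ^ 3 / 1024 = (T / 1024) * T ^ 2 := by ring
      rw [this]
      refine mul_le_mul_of_nonneg_right ?_ (by positivity)
      rw [le_div_iff₀ (by norm_num)]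
      linarith
    have h4 : ((T : ℝ) + 1) ^ 2 ≤ 4 * T ^ 2 := by nlinarith
    have h5 : 512 * K0 * (T + 1) ^ 2 ≤ 512 * K0 * (4 * (T : ℝ) ^ 2) :=
      mul_le_mul_of_nonneg_left h4 (by positivity)
    have h6 : (3 : ℝ) ≤ 2 * (T : ℝ) ^ 2 := by nlinarith
    nlinarith
  set lam := Pool.Agent.Lib.MP_6df53f_co.lam T with hlamdef
  have hlam3 : 3 ≤ lam := by
    have : 0 ≤ 512 * K0 * ((T : ℝ) + 1) ^ 2 := by positivity
    linarith
  obtain ⟨K, hK1, p0, hp0⟩ := Pool.Agent.Lib.MP_6df53f_co.cover_large T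
  obtain ⟨N, hN⟩ : ∃ N : ℕ, 256 * K0 * (T + 1) ≤ N := exists_nat_ge _
  obtain ⟨p, hpge, hpp⟩ := Nat.exists_infinite_primes (p0 + N + 2)
  have : Fact p.Prime := ⟨hpp⟩
  have : Nonempty (Fin K) := ⟨⟨0, hK1⟩⟩
  obtain ⟨φ, hφ⟩ := hp0 p (by omega) hpp
  have hpR : (2 : ℝ) ≤ p := by exact_mod_cast hpp.two_le
  have hpN : 256 * K0 * (T + 1) ≤ p := by
    refine hN.trans ?_
    have : N ≤ p := by omega
    exact_mod_cast this
  -- the exponent
  have hexp3 : Real.exp (-lam) ≤ 1 / 16 := by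
    have h1 : Real.exp (-lam) ≤ Real.exp (-3) := Real.exp_le_exp.2 (by linarith)
    have h2 : Real.exp (-3 : ℝ) ≤ 1 / 16 := by
      rw [Real.exp_neg, inv_eq_one_div]
      refine one_div_le_one_div_of_le (by norm_num) ?_
      have h3 := Real.exp_one_gt_d9
      have h4 : Real.exp 3 = Real.exp 1 ^ 3 := by
        rw [← Real.exp_nat_mul]; norm_num
      rw [h4]
      calc (16 : ℝ) ≤ 2.7182818283 ^ 3 := by norm_num
        _ ≤ _ := pow_le_pow_left₀ (by norm_num) h3.le 3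
    exact h1.trans h2
  have hexp0 : 0 < Real.exp (-lam) := Real.exp_pos _
  set δ := 4 * Real.exp (-lam) with hδ
  have hδ0 : 0 < δ := by positivity
  have hδ1 : δ < 1 / 2 := by linarith
  have hlog : Real.log (1 / δ) = lam - Real.log 4 := by
    rw [hδ, one_div, Real.log_inv, Real.log_mul (by norm_num) hexp0.ne', Real.log_exp]
    ring
  have hlog4 : Real.log 4 ≤ 3 := by
    have := Real.log_le_sub_one_of_pos (x := 4) (by norm_num)
    linarith
  set L := Real.log (1 / δ) with hL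
  have hLge : 512 * K0 * (T + 1) ^ 2 ≤ L := by linarith
  have hL0 : 0 < L := lt_of_lt_of_le (by positivity) hLge
  set s := p ^ 2 / 64 with hs
  have hcard : Fintype.card (Fin K × ZMod p) = K * p := by
    rw [Fintype.card_prod, Fintype.card_fin, ZMod.card]
  have hcardI : Fintype.card (Option (Fin T) × ZMod p) = (T + 1) * p := by
    rw [Fintype.card_prod, Fintype.card_option, Fintype.card_fin, ZMod.card]
  have hmain := Pool.Agent.Lib.MP_6df53f_co.le_cpr
    (fun (i : Option (Fin T) × ZMod p) (x : Fin K × ZMod p) => φ i.2 x) s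
    (δ0 := 3 * Real.exp (-lam)) (δ := δ) (by linarith) (by positivity) (by linarith)
    (fun S hS => by
      obtain ⟨Y, hY1, hY2⟩ := hφ S (by omega)
      refine ⟨Y, hY1, ?_⟩
      rw [hcard]
      push_cast
      exact hY2)
  rw [hcardI] at hmain
  set r := (T + 1) * p + 1 with hr
  have hr2 : 2 ≤ r := by
    have : 0 < (T + 1) * p := Nat.mul_pos (Nat.succ_pos _) hpp.pos
    omega
  have hle := hmain.trans (hall r hr2 δ hδ0 hδ1)
  rw [EReal.coe_le_coe_iff] at hle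
  -- numeric contradiction
  have hrR : (r : ℝ) ≤ 2 * ((T + 1) * p) := by
    rw [hr]; push_cast
    have : (1 : ℝ) ≤ ((T : ℝ) + 1) * p := by nlinarith
    linarith
  have hceil : (⌈(r : ℝ) / L⌉ : ℝ) ≤ r / L + 1 := (Int.ceil_lt_add_one _).le
  have hs1 : (p : ℝ) ^ 2 / 64 < ((s + 1 : ℕ) : ℝ) := by
    have h1 : p ^ 2 < 64 * (s + 1) := by omega
    have h2 : (p : ℝ) ^ 2 < 64 * ((s + 1 : ℕ) : ℝ) := by exact_mod_cast h1
    linarith
  have hup : K0 * r * (⌈(r : ℝ) / L⌉ : ℝ) ≤ (p : ℝ) ^ 2 / 64 := by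
    have h0 : (0 : ℝ) ≤ r := by positivity
    have h1 : K0 * r * (⌈(r : ℝ) / L⌉ : ℝ) ≤ K0 * r * (r / L + 1) :=
      mul_le_mul_of_nonneg_left hceil (by positivity)
    have h2 : K0 * r * (r / L + 1) ≤
        K0 * (2 * ((T + 1) * p)) * ((2 * ((T + 1) * p)) / L + 1) := by
      gcongr
    have h3 : K0 * (2 * ((T + 1) * p)) * ((2 * ((T + 1) * p)) / L + 1) =
        (4 * K0 * (T + 1) ^ 2 / L) * p ^ 2 + 2 * K0 * (T + 1) * p := by
      field_simp
      ring
    have h4 : 4 * K0 * ((T : ℝ) + 1) ^ 2 / L ≤ 1 / 128 := by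
      rw [div_le_iff₀ hL0]; linarith
    have h5 : (4 * K0 * ((T : ℝ) + 1) ^ 2 / L) * (p : ℝ) ^ 2 ≤ 1 / 128 * p ^ 2 :=
      mul_le_mul_of_nonneg_right h4 (by positivity)
    have h6 : 2 * K0 * ((T : ℝ) + 1) * p ≤ 1 / 128 * (p : ℝ) ^ 2 := by
      have : 2 * K0 * ((T : ℝ) + 1) ≤ 1 / 128 * p := by linarith
      calc 2 * K0 * ((T : ℝ) + 1) * p ≤ 1 / 128 * p * p :=
            mul_le_mul_of_nonneg_right this (by linarith)
        _ = _ := by ring
    linarith
  linarith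

end Pool.Agent.Results.MP_6df53f_co.CyclePartitionDisproof
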